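import Pool.Agent.P.MP_f1a348_lc.LG.Tab

/-! Recognition of Latin square graphs of groups. -/

namespace Pool.Agent.P.MP_f1a348_lc.LG

open Pool.Agent.P.MP_f1a348_lc.Gr Pool.Agent.P.MP_f1a348_lc.GI

variable {n N : ℕ} {x T : List Bool}

theorem find_lt (f : ℕ → Bool) (h : 0 < n) : ((List.range n).find? f).getD 0 < n := by
  cases e : (List.range n).find? f with
  | none => exact h
  | some t => exact List.mem_range.1 (List.mem_of_find?_eq_some e)

theorem mu_tbits {G : Type} [Group G] (e : Fin N ≃ G) (a b : Fin N) :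
    mu (List.range N) (tbits e) a b = e.symm (e a * e b) := by
  obtain ⟨c, c1, c2⟩ := find_range (n := N)
    (f := fun c => (tbits e).getD ((a * N + b) * N + c) false)
    ⟨e.symm (e a * e b), (tbits_getD e _ _ _).2 (by simp)⟩
  rw [mu, List.length_range, c1, (tbits_getD e _ _ _).1 c2, Equiv.symm_apply_apply]

theorem chk0_tbits {G : Type} [Group G] (e : Fin N ≃ G) :
    chk0 (List.range N) (tbits e) = true := by
  simp only [chk0, Bool.and_eq_true, all_range, any_range, beq_iff_eq, mu_tbits, List.length_range,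
    Fin.val_inj, Equiv.apply_symm_apply]
  refine ⟨fun a b c => ⟨?_, by rw [mul_assoc]⟩, e.symm 1, fun a => ⟨by simp, e.symm (e a)⁻¹, by simp⟩⟩
  rw [Bool.eq_iff_iff, tbits_getD, beq_iff_eq, Fin.val_inj, Equiv.symm_apply_eq]

theorem exists_group {α : Type} (m : α → α → α) (o : α) (h1 : ∀ a b c, m (m a b) c = m a (m b c))
    (h2 : ∀ a, m o a = a) (h3 : ∀ a, ∃ b, m b a = o) :
    ∃ (H : Type) (_ : Group H) (e : α ≃ H), ∀ a b, e (m a b) = e a * e b := by
  choose i hi using h3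
  exact ⟨α, @Group.ofLeftAxioms α ⟨m⟩ ⟨i⟩ ⟨o⟩ h1 h2 hi, Equiv.refl α, fun _ _ => rfl⟩

theorem chk0_sound (hT : T.length = N * N * N) (h : chk0 (List.range N) T = true) :
    ∃ (H : Type) (_ : Group H) (e : Fin N ≃ H), T = tbits e := by
  simp only [chk0, Bool.and_eq_true, all_range, any_range, beq_iff_eq, List.length_range] at h
  obtain ⟨h1, o, h2⟩ := h
  have hN : 0 < N := Fin.pos o
  obtain ⟨m, hm⟩ : ∃ m : Fin N → Fin N → Fin N, ∀ a b : Fin N, mu (List.range N) T a b = m a b :=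
    ⟨fun a b => ⟨_, find_lt _ hN⟩, fun _ _ => rfl⟩
  simp only [hm, Fin.val_inj] at h1 h2
  obtain ⟨H, _, e, he⟩ := exists_group m o (fun a b c => (h1 a b c).2) (fun a => (h2 a).1)
    fun a => (h2 a).2
  refine ⟨H, inferInstance, e, List.ext_getElem (by rw [hT, length_tbits]) fun t k1 k2 => ?_⟩
  have d : t = (t / N / N * N + t / N % N) * N + t % N := by
    rw [Nat.div_add_mod', Nat.div_add_mod']
  have l1 : t / N < N * N := Nat.div_lt_of_lt_mul (by rw [mul_comm]; exact hT ▸ k1)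
  have a1 := (h1 ⟨t / N / N, Nat.div_lt_of_lt_mul l1⟩ ⟨t / N % N, Nat.mod_lt _ hN⟩
    ⟨t % N, Nat.mod_lt _ hN⟩).1
  have a2 := tbits_getD e ⟨t / N / N, Nat.div_lt_of_lt_mul l1⟩ ⟨t / N % N, Nat.mod_lt _ hN⟩
    ⟨t % N, Nat.mod_lt _ hN⟩
  simp only [← d] at a1 a2
  rw [List.getD_eq_getElem _ _ k1] at a1
  rw [List.getD_eq_getElem _ _ k2, ← he, e.apply_eq_iff_eq] at a2
  rw [a1, Bool.eq_iff_iff, a2, beq_iff_eq, Fin.ext_iff]

theorem adj_tab {H : Type} [Group H] (p q : H × H) : (netGraph (tab H)).Adj p q ↔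
    p ≠ q ∧ (p.1 = q.1 ∨ p.2 = q.2 ∨ p.1 * p.2 = q.1 * q.2) := by
  simp [netGraph, tab, Fin.exists_fin_succ]

theorem chk_sound {Y : SimpleGraph (Fin n)}
    (hx : ∀ u v : Fin n, ad (List.range n) x u v = true ↔ Y.Adj u v)
    (h : chk (List.range n) x = true) :
    ∃ (H : Type) (_ : Group H) (e : Fin (rr (List.range n) x).length ≃ H),
      tb (List.range n) x = tbits e ∧ Nonempty (Y ≃g netGraph (tab H)) := by
  rw [chk, Bool.and_eq_true] at h
  obtain ⟨H, _, e, he⟩ := chk0_sound (by simp [tb, tb0, length_cube]) h.1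
  refine ⟨H, inferInstance, e, he, ?_⟩
  have h2 := h.2
  rw [he] at h2
  generalize (rr (List.range n) x).length = N at e h2
  simp only [chk1, Bool.and_eq_true, all_range, beq_iff_eq, List.length_range, mu_tbits,
    Bool.or_eq_true, bne_iff_ne, Fin.val_inj] at h2
  obtain ⟨h2, h3⟩ := h2
  have hN : 0 < N := Fin.pos (e.symm 1)
  obtain ⟨z, hz⟩ : ∃ z : Fin N → Fin N → Fin n, ∀ a b : Fin N, ph (List.range n) x a b = z a b :=
    ⟨fun a b => ⟨_, find_lt _ (h2 ▸ Nat.mul_pos hN hN)⟩, fun _ _ => rfl⟩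
  simp only [hz, ne_eq, Fin.val_inj] at h3
  have bij : Function.Bijective fun p : H × H => z (e.symm p.1) (e.symm p.2) := by
    have : Finite H := Finite.of_equiv _ e
    refine Function.Injective.bijective_of_nat_card_le (fun p q k => ?_) ?_
    · have := (h3 _ _ _ _).2.resolve_left (not_not.2 k)
      exact Prod.ext (e.symm.injective this.1) (e.symm.injective this.2)
    · rw [Nat.card_prod, ← Nat.card_congr e, Nat.card_fin, Nat.card_fin, h2]
  refine ⟨SimpleGraph.Iso.symm ⟨Equiv.ofBijective _ bij, fun {p q} => ?_⟩⟩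
  rw [Equiv.ofBijective_apply, Equiv.ofBijective_apply, ← hx, (h3 _ _ _ _).1, adj_tab]
  simp [Fin.val_inj, Prod.ext_iff, imp_iff_not_or]

theorem chk_complete {G : Type} [Group G] {co : Fin 3 → Fin n → G} (h : IsNet co)
    (h5 : 5 ≤ Nat.card G) (hx : Mat co x)
    (law : ∀ i j k : Fin 3, i ≠ j → i ≠ k → j ≠ k →
      ∃ α β γ : G ≃ G, ∀ z, γ (co k z) = α (co i z) * β (co j z)) :
    chk (List.range n) x = true := by
  obtain ⟨e, h1, h2, z, h3, h4⟩ := tb_eq h h5 hx law rfl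
  rw [chk, h1, h2, chk0_tbits, Bool.true_and]
  simp only [chk1, Bool.and_eq_true, all_range, beq_iff_eq, List.length_range, mu_tbits,
    Bool.or_eq_true, bne_iff_ne, Fin.val_inj, h3, ne_eq]
  refine ⟨by rw [← sq, ← h.card, Nat.card_fin], fun a b a' b' => ⟨?_, ?_⟩⟩
  · rw [Bool.eq_iff_iff, hx, (h4 a b a' b').1]
    have : z a b = z a' b' ↔ a = a' ∧ b = b' := ⟨(h4 a b a' b').2, fun e => by rw [e.1, e.2]⟩
    simp [Fin.val_inj, this, imp_iff_not_or]
  · exact (em _).symm.imp_right (h4 a b a' b').2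

end Pool.Agent.P.MP_f1a348_lc.LG
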