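import Pool.Agent.P.MP_f1a348_lc.LG.Chk

/-! Latin square graphs of finite groups are isomorphic iff the groups are, for all orders. -/

namespace Pool.Agent.P.MP_f1a348_lc.LG

open Pool.Agent.P.MP_f1a348_lc.Gr

/-- every triangle has a common neighbour -/
def Phi {V : Type} (X : SimpleGraph V) : Prop :=
  ∀ u v w, X.Adj u v → X.Adj u w → X.Adj v w → ∃ s, X.Adj s u ∧ X.Adj s v ∧ X.Adj s w

theorem Phi.iso {V W : Type} {X : SimpleGraph V} {Y : SimpleGraph W} (ψ : X ≃g Y) (h : Phi X) :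
    Phi Y := by
  intro u v w h1 h2 h3
  obtain ⟨s, k1, k2, k3⟩ := h _ _ _ (ψ.symm.map_adj_iff.2 h1) (ψ.symm.map_adj_iff.2 h2)
    (ψ.symm.map_adj_iff.2 h3)
  exact ⟨ψ s, by simpa using ψ.map_adj_iff.2 k1, by simpa using ψ.map_adj_iff.2 k2,
    by simpa using ψ.map_adj_iff.2 k3⟩

variable {G H : Type} [Group G] [Group H]

theorem Phi.sq (h : Phi (netGraph (tab G))) (g : G) : g * g = 1 := by
  by_cases hg : g = 1
  · simp [hg]
  have hg' : (1 : G) ≠ g := fun e => hg e.symm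
  obtain ⟨⟨a, b⟩, k1, k2, k3⟩ := h (1, 1) (1, g) (g, 1) (by simp [adj_tab, hg'])
    (by simp [adj_tab, hg']) (by simp [adj_tab, hg'])
  simp only [adj_tab, ne_eq, Prod.mk.injEq, mul_one, one_mul] at k1 k2 k3
  have a1 : a ≠ 1 := by
    rintro rfl
    simp only [true_and, one_mul] at k1 k2 k3
    tauto
  have b1 : b ≠ 1 := by
    rintro rfl
    simp only [and_true, mul_one] at k1 k2 k3
    tauto
  have ab : a * b = 1 := by tauto
  have abg : a * b ≠ g := ab ▸ hg'
  obtain rfl : a = g := by tauto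
  obtain rfl : b = a := by tauto
  exact ab

theorem phi_of_sq (h4 : Nat.card G = 4) (h : ∀ g : G, g * g = 1) : Phi (netGraph (tab G)) := by
  have : Finite G := Nat.finite_of_card_ne_zero (by omega)
  have N := isNet_tab (G := G)
  rintro u v w ⟨uv, a, ha⟩ ⟨uw, b, hb⟩ ⟨vw, c, hc⟩
  by_cases k : ∃ m, tab G m u = tab G m v ∧ tab G m u = tab G m w
  · obtain ⟨m, m1, m2⟩ := k
    have c : ({t | tab G m t = tab G m u} \ {u, v, w}).ncard ≠ 0 := by
      have h1 := Set.le_ncard_sdiff ({u, v, w} : Set (G × G)) {t | tab G m t = tab G m u}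
      have h2 : ({u, v, w} : Set (G × G)).ncard ≤ 3 :=
        (Set.ncard_insert_le _ _).trans (by have := Set.ncard_insert_le v {w}; simp at this ⊢; omega)
      rw [N.ncard_line] at h1
      omega
    obtain ⟨s, k1, k2⟩ := Set.nonempty_of_ncard_ne_zero c
    simp only [Set.mem_insert_iff, Set.mem_singleton_iff, not_or] at k2
    exact ⟨s, ⟨k2.1, m, k1⟩, ⟨k2.2.1, m, k1.trans m1⟩, k2.2.2, m, k1.trans m2⟩
  have ab : a ≠ b := fun e => k ⟨a, ha, e ▸ hb⟩
  have ac : a ≠ c := fun e => k ⟨a, ha, ha.trans (e ▸ hc)⟩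
  have bc : b ≠ c := fun e => k ⟨b, hb.trans (e ▸ hc.symm), hb⟩
  obtain ⟨s, s1, s2⟩ := N.surj a b ab (tab G a w) (tab G b v)
  obtain ⟨α, β, γ, e⟩ := tab_law (G := G) ab ac bc
  refine ⟨s, ⟨fun k => uw (N.inj a b ab _ _ (k ▸ s1) hb), c, γ.injective ?_⟩,
    ⟨fun k => vw (N.inj a c ac _ _ (k ▸ s1) hc), b, s2⟩,
    fun k => vw (N.inj b c bc _ _ (k ▸ s2.symm) hc), a, s1⟩
  have e1 := congrArg γ hc
  rw [e, e] at e1
  rw [e, e, s1, s2, ha, hb, eq_mul_inv_of_mul_eq e1.symm]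
  have e2 := h (β (tab G b v) * (β (tab G b w))⁻¹)
  rw [← mul_assoc, mul_inv_eq_one] at e2
  rw [mul_assoc, mul_assoc, ← mul_assoc (β _), e2]

theorem iso_of_mulEquiv (f : G ≃* H) : Nonempty (netGraph (tab G) ≃g netGraph (tab H)) :=
  ⟨⟨Equiv.prodCongr f f, fun {p q} => by
    simp [adj_tab, Prod.ext_iff, ← map_mul]⟩⟩

theorem card_of_iso [Finite G] (ψ : netGraph (tab G) ≃g netGraph (tab H)) :
    Nat.card G = Nat.card H := by
  have := Nat.card_congr ψ.toEquiv
  rw [Nat.card_prod, Nat.card_prod] at this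
  exact Nat.mul_self_inj.1 this

theorem iso_iff [Finite G] :
    Nonempty (netGraph (tab G) ≃g netGraph (tab H)) ↔ Nonempty (G ≃* H) := by
  refine ⟨fun ⟨ψ⟩ => ?_, fun ⟨f⟩ => iso_of_mulEquiv f⟩
  have hc := card_of_iso ψ
  have h0 : 0 < Nat.card G := Nat.card_pos
  have : Finite H := Nat.finite_of_card_ne_zero (by omega)
  by_cases h5 : 5 ≤ Nat.card G
  · exact mulEquiv_of_iso hc h5 ψ
  have cyc : ∀ (K : Type) [Group K], 0 < Nat.card K → Nat.card K ≤ 3 → IsCyclic K := by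
    intro K _ h1 h2
    rcases (by omega : Nat.card K = 1 ∨ Nat.card K = 2 ∨ Nat.card K = 3) with e | e | e
    · exact @isCyclic_of_subsingleton K _ (Nat.card_eq_one_iff_unique.mp e).1
    · exact isCyclic_of_prime_card e
    · exact isCyclic_of_prime_card e
  by_cases h3 : Nat.card G ≤ 3
  · have := cyc G h0 h3
    have := cyc H (by omega) (by omega)
    exact ⟨mulEquivOfCyclicCardEq hc⟩
  have h4 : Nat.card G = 4 := by omega
  have key : ∀ (K L : Type) [Group K] [Group L], Nat.card K = 4 → Nat.card L = 4 →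
      (netGraph (tab K) ≃g netGraph (tab L)) → ¬ IsCyclic K → ¬ IsCyclic L := by
    intro K L _ _ k l φ h1 h2
    rw [not_isCyclic_iff_exponent_eq_prime Nat.prime_two k] at h1
    have h3 := ((phi_of_sq k fun g => by
      rw [← sq, ← h1, Monoid.pow_exponent_eq_one]).iso φ).sq
    have h4 : Monoid.exponent L ∣ 2 := Monoid.exponent_dvd_of_forall_pow_eq_one fun g => by
      rw [sq, h3]
    rw [IsCyclic.exponent_eq_card, l] at h4
    omega
  by_cases c : IsCyclic G
  · have : IsCyclic H := by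
      by_contra c'
      exact key H G (hc ▸ h4) h4 ψ.symm c' c
    exact ⟨mulEquivOfCyclicCardEq hc⟩
  · have c' := key G H h4 (hc ▸ h4) ψ c
    have : IsKleinFour G := ⟨h4, (not_isCyclic_iff_exponent_eq_prime Nat.prime_two h4).1 c⟩
    have : IsKleinFour H :=
      ⟨hc ▸ h4, (not_isCyclic_iff_exponent_eq_prime Nat.prime_two (hc ▸ h4)).1 c'⟩
    exact IsKleinFour.nonempty_mulEquiv

end Pool.Agent.P.MP_f1a348_lc.LG
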