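import Pool.Agent.P.MP_f1a348_lc.LG.Iso
import Pool.Agent.P.MP_f1a348_lc.GI.All

/-! Isomorphism with the Latin square graph of a group in time `n ^ o(log n)`. -/

namespace Pool.Agent.P.MP_f1a348_lc.LG

open Pool.Agent.Lib.Helper47 Pool.Agent.Lib.Helper33 Pool.Agent.P.MP_f1a348_lc.Gr
  Pool.Agent.P.MP_f1a348_lc.GI

open Classical in
/-- the adjacency matrix -/
noncomputable def mbits {n : ℕ} (X : SimpleGraph (Fin n)) : List Bool :=
  List.ofFn fun k : Fin (n * n) => decide (X.Adj k.divNat k.modNat)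

theorem length_mbits {n : ℕ} (X : SimpleGraph (Fin n)) : (mbits X).length = n * n :=
  List.length_ofFn

theorem ad_mbits {n : ℕ} (X : SimpleGraph (Fin n)) (y : List Bool) (u v : Fin n) :
    ad (List.range n) (mbits X ++ y) u v = true ↔ X.Adj u v := by
  have h : u * n + v < n * n := by nlinarith [u.2, v.2]
  have hn : 0 < n := Fin.pos u
  rw [ad, List.length_range, List.getD_append _ _ _ _ (by rwa [length_mbits]),
    List.getD_eq_getElem _ _ (by rwa [length_mbits])]
  simp only [mbits, List.getElem_ofFn, decide_eq_true_eq]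
  have e1 : (⟨_, h⟩ : Fin (n * n)).divNat = u := Fin.ext (by
    simp only [Fin.coe_divNat]
    rw [mul_comm, Nat.mul_add_div hn, Nat.div_eq_of_lt v.2, add_zero])
  have e2 : (⟨_, h⟩ : Fin (n * n)).modNat = v := Fin.ext (by simp [Nat.mod_eq_of_lt v.2])
  rw [e1, e2]

theorem mbits_inj {n : ℕ} {X Y : SimpleGraph (Fin n)} (h : mbits X = mbits Y) : X = Y := by
  ext u v
  rw [← ad_mbits X [], h, ad_mbits]

/-- the cyclic group of order four -/
abbrev A4 : Type := Multiplicative (ZMod 4)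
/-- the Klein four group -/
abbrev B4 : Type := Multiplicative (ZMod 2 × ZMod 2)
/-- a numbering -/
noncomputable def eA : Fin 4 ≃ A4 := (Fintype.equivFinOfCardEq (α := A4) rfl).symm
/-- a numbering -/
noncomputable def eB : Fin 4 ≃ B4 := (Fintype.equivFinOfCardEq (α := B4) rfl).symm

theorem not_iso : ¬ Nonempty (A4 ≃* B4) := fun ⟨f⟩ => by
  have h1 : ∀ g : B4, g * g = 1 := by decide
  have h2 : (Multiplicative.ofAdd 1 : A4) * Multiplicative.ofAdd 1 ≠ 1 := by decide
  exact h2 (f.injective (by rw [map_mul, h1, map_one]))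

/-- the number of vertices -/
def ordn (x : List Bool) : ℕ :=
  (List.range x.length).countP (fun m => Nat.ble (2 * ((m + 1) * (m + 1))) x.length)

/-- the two tables for large inputs -/
noncomputable def conv (x : List Bool) : List Bool :=
  bif chk (List.range (ordn x)) (x.drop (ordn x * ordn x)) then
    tb (List.range (ordn x)) x ++ tb (List.range (ordn x)) (x.drop (ordn x * ordn x))
  else tbits eA ++ tbits eB

open Classical in
/-- the two tables for small inputs -/
noncomputable def small (x : List Bool) : List Bool :=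
  if x.length < 1250 then
    if ∃ (n : ℕ) (X Y : SimpleGraph (Fin n)), x = mbits X ++ mbits Y ∧ Nonempty (X ≃g Y)
    then tbits eA ++ tbits eA else tbits eA ++ tbits eB
  else []

/-- the reduction -/
noncomputable def full (x : List Bool) : List Bool :=
  bif Nat.blt x.length 1250 then small x else conv x

theorem pt_full : PT full := by
  have h0 := PT.rangeLength (PT.id (α := List Bool))
  have h1 : PT ordn := by unfold ordn; fun_prop
  have h2 : PT (fun x => List.range (ordn x)) :=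
    PT.range_of_le h1 PT.id (fun x => List.countP_le_length.trans (by simp))
  have h3 : PT conv := by unfold conv; fun_prop
  have h4 : PT small := PT.of_table small (List.finite_length_lt Bool 1250).toFinset.toList []
    fun b hb => if_neg (by simpa using hb)
  unfold full; fun_prop

theorem ordn_eq {n : ℕ} {x : List Bool} (h : x.length = 2 * (n * n)) : ordn x = n := by
  rw [ordn, h]
  refine countP_range_lt _ _ (by nlinarith) _ (fun i => ?_)
  rw [Nat.ble_eq]
  exact ⟨fun e => Nat.mul_self_le_mul_self_iff.1 (Nat.le_of_mul_le_mul_left e two_pos),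
    fun e => Nat.mul_le_mul_left _ (Nat.mul_self_le_mul_self e)⟩

theorem pull {n : ℕ} {X : SimpleGraph (Fin n)} {G : Type} [Group G] (ψ : X ≃g netGraph (tab G))
    (y : List Bool) : IsNet (fun i u => tab G i (ψ u)) ∧
      Mat (fun i u => tab G i (ψ u)) (mbits X ++ y) ∧ ∀ i j k : Fin 3, i ≠ j → i ≠ k → j ≠ k →
        ∃ α β γ : G ≃ G, ∀ z, γ (tab G k (ψ z)) = α (tab G i (ψ z)) * β (tab G j (ψ z)) := by
  refine ⟨⟨fun i j h p q h1 h2 => ψ.injective (isNet_tab.inj i j h _ _ h1 h2), fun i j h a b => ?_⟩,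
    fun u v => ?_, fun i j k h1 h2 h3 => ?_⟩
  · obtain ⟨p, hp⟩ := isNet_tab.surj i j h a b
    exact ⟨ψ.symm p, by simpa using hp⟩
  · rw [ad_mbits, ← ψ.map_adj_iff]
    exact and_congr_left' ψ.injective.ne_iff
  · obtain ⟨α, β, γ, e⟩ := tab_law (G := G) h1 h2 h3
    exact ⟨α, β, γ, fun z => e _⟩

theorem full_spec {n : ℕ} (X Y : SimpleGraph (Fin n)) {G : Type} [Group G]
    (ψ : X ≃g netGraph (tab G)) :
    ∃ (A B : Type) (_ : Group A) (_ : Group B) (N : ℕ) (e : Fin N ≃ A) (e' : Fin N ≃ B),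
      full (mbits X ++ mbits Y) = tbits e ++ tbits e' ∧ (N ≤ n ∨ N = 4) ∧
      (Nonempty (A ≃* B) ↔ Nonempty (X ≃g Y)) := by
  have hl : (mbits X ++ mbits Y).length = 2 * (n * n) := by
    rw [List.length_append, length_mbits, length_mbits, two_mul]
  by_cases hs : (mbits X ++ mbits Y).length < 1250
  · rw [full, Nat.blt_eq.mpr hs, cond_true, small, if_pos hs]
    by_cases h : Nonempty (X ≃g Y)
    · exact ⟨A4, A4, _, _, 4, eA, eA, if_pos ⟨n, X, Y, rfl, h⟩, Or.inr rfl,
        iff_of_true ⟨MulEquiv.refl _⟩ h⟩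
    · refine ⟨A4, B4, _, _, 4, eA, eB, if_neg ?_, Or.inr rfl, iff_of_false not_iso h⟩
      rintro ⟨m, X', Y', e, k⟩
      have e1 := congrArg List.length e
      rw [hl, List.length_append, length_mbits, length_mbits] at e1
      obtain rfl : n = m := Nat.mul_self_inj.1 (by omega)
      obtain ⟨e2, e3⟩ := List.append_inj e (by rw [length_mbits, length_mbits])
      exact h (mbits_inj e2 ▸ mbits_inj e3 ▸ k)
  have hb : Nat.blt (mbits X ++ mbits Y).length 1250 = false :=
    Bool.eq_false_iff.2 fun e => hs (Nat.blt_eq.mp e)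
  rw [full, hb, cond_false, conv, ordn_eq hl, List.drop_left' (length_mbits X)]
  obtain ⟨h1, h2, h3⟩ := pull ψ (mbits Y)
  have hc := h1.card
  rw [Nat.card_fin] at hc
  have h5 : 5 ≤ Nat.card G := by
    by_contra e
    have : Nat.card G ^ 2 ≤ 4 ^ 2 := Nat.pow_le_pow_left (by omega) 2
    have : n * n ≤ 16 * 16 := Nat.mul_self_le_mul_self (by omega)
    omega
  have : Finite G := Nat.finite_of_card_ne_zero (by omega)
  cases hk : chk (List.range n) (mbits Y) with
  | false =>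
    refine ⟨A4, B4, _, _, 4, eA, eB, rfl, Or.inr rfl, iff_of_false not_iso fun ⟨φ⟩ => ?_⟩
    obtain ⟨k1, k2, k3⟩ := pull (φ.symm.trans ψ) []
    have := chk_complete k1 h5 k2 k3
    rw [List.append_nil, hk] at this
    exact Bool.false_ne_true this
  | true =>
    obtain ⟨H, _, e', k1, ⟨φ⟩⟩ := chk_sound (Y := Y)
      (fun u v => by rw [← ad_mbits Y [], List.append_nil]) hk
    have hc' := (pull φ []).1.card
    rw [Nat.card_fin, hc, ← Nat.card_congr e', Nat.card_fin] at hc'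
    have hN := Nat.pow_left_injective two_ne_zero hc'
    obtain ⟨e, -, k2, -⟩ := tb_eq h1 h5 h2 h3 hN
    refine ⟨G, H, _, _, _, e, e', by rw [cond_true, k1, k2], Or.inl ?_, ?_⟩
    · rw [← hN, hc]
      exact Nat.le_self_pow two_ne_zero _
    · rw [← iso_iff]
      exact ⟨fun ⟨f⟩ => ⟨(ψ.trans f).trans φ.symm⟩, fun ⟨f⟩ => ⟨(ψ.symm.trans f).trans φ⟩⟩

open Classical in
theorem main : ∃ M : BTM, ∀ ε : ℝ, 0 < ε → ∃ C : ℝ, ∀ (n : ℕ) (X Y : SimpleGraph (Fin n))
    (G : Type) [Group G], Nonempty (X ≃g netGraph (tab G)) → ∃ t : ℕ,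
      (t : ℝ) ≤ C * (n : ℝ) ^ (ε * Real.logb 2 n) ∧
      M.Out (mbits X ++ mbits Y) [decide (Nonempty (X ≃g Y))] t := by
  obtain ⟨M₂, h₂⟩ := main_of all_plan all_exec
  obtain ⟨M₁, t₁, ht, hy, h₁⟩ := (RT.of_PT (s := fun x : List Bool => x.length) (x := fun x => x)
    pt_full ((((PB.const 4).mul PB.self).add (PB.const 1)).mono
      (fun a => size_bits_le _))).exists_btm PB.self
  obtain ⟨p, hp⟩ := (ht.add ((PB.const 2).mul hy)).add (PB.const 2)
  obtain ⟨c, d, hc⟩ := poly_le_pow p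
  refine ⟨M₁.comp M₂, fun ε hε => ?_⟩
  obtain ⟨C₂, hC₂⟩ := h₂ ε hε
  obtain ⟨m, -, hm⟩ := time_bound 1 hε
  obtain ⟨C₁, hC₁⟩ := hm (3 * d)
  have one : ∀ k : ℕ, 0 < k → (1 : ℝ) ≤ (k : ℝ) ^ (ε * Real.logb 2 k) := fun k hk =>
    Real.one_le_rpow (by exact_mod_cast hk)
      (mul_nonneg hε.le (Real.logb_nonneg one_lt_two (by exact_mod_cast hk)))
  refine ⟨c * C₁ + |C₂| * ((4 : ℕ) : ℝ) ^ (ε * Real.logb 2 (4 : ℕ)), fun n X Y G _ ⟨ψ⟩ => ?_⟩
  obtain ⟨A, B, _, _, N, e, e', k1, k2, k3⟩ := full_spec X Y ψ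
  obtain ⟨t₂, a1, a2⟩ := hC₂ A B N e e'
  have hn : 0 < n := Fin.pos (ψ.symm 1)
  have hN : 0 < N := Fin.pos (e.symm 1)
  have a3 := (h₁ (mbits X ++ mbits Y)).comp (k1 ▸ a2)
  rw [decide_eq_decide.2 k3] at a3
  refine ⟨_, ?_, a3⟩
  have b1 : t₁ (mbits X ++ mbits Y) + 2 * (full (mbits X ++ mbits Y)).length + 2 ≤
      c * (n + 1) ^ (1 * (2 * Nat.log m n + 3 * d)) := by
    refine (hp _).trans ((hc _).trans (Nat.mul_le_mul_left c ?_))
    refine le_trans ?_ (Nat.pow_le_pow_right (Nat.succ_pos n) (show 3 * d ≤ _ by omega))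
    simp only [pow_mul, List.length_append, length_mbits, Nat.succ_eq_add_one]
    exact Nat.pow_le_pow_left (by nlinarith [Nat.mul_pos hn hn]) d
  have b2 : ((c * (n + 1) ^ (1 * (2 * Nat.log m n + 3 * d)) : ℕ) : ℝ) ≤
      c * (C₁ * (n : ℝ) ^ (ε * Real.logb 2 n)) := by
    rw [Nat.cast_mul]
    exact mul_le_mul_of_nonneg_left (hC₁ n hn) (Nat.cast_nonneg c)
  have b3 : (N : ℝ) ^ (ε * Real.logb 2 N) ≤
      ((4 : ℕ) : ℝ) ^ (ε * Real.logb 2 (4 : ℕ)) * (n : ℝ) ^ (ε * Real.logb 2 n) := by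
    rcases k2 with k | rfl
    · have hN1 : (1 : ℝ) ≤ N := by exact_mod_cast hN
      have hk : (N : ℝ) ≤ n := by exact_mod_cast k
      refine le_trans ?_ (le_mul_of_one_le_left (by positivity) (one 4 (by norm_num)))
      refine (Real.rpow_le_rpow (by positivity) hk
        (mul_nonneg hε.le (Real.logb_nonneg one_lt_two hN1))).trans
        (Real.rpow_le_rpow_of_exponent_le (hN1.trans hk) (mul_le_mul_of_nonneg_left
          (Real.logb_le_logb_of_le one_lt_two (by positivity) hk) hε.le))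
    · exact le_mul_of_one_le_right (by positivity) (one n hn)
  have b4 : (t₂ : ℝ) ≤ |C₂| * (((4 : ℕ) : ℝ) ^ (ε * Real.logb 2 (4 : ℕ)) *
      (n : ℝ) ^ (ε * Real.logb 2 n)) :=
    a1.trans (mul_le_mul (le_abs_self _) b3 (by positivity) (abs_nonneg _))
  have b5 := (Nat.cast_le (α := ℝ)).2 b1
  push_cast at b5 b2 b4 ⊢
  linarith

end Pool.Agent.P.MP_f1a348_lc.LG
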