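import Pool.Agent.P.MP_f1a348_lc.GI.Prog
import Pool.Agent.P.MP_f1a348_lc.Gr.Latin

/-!
Recovering the multiplication table of a group from the adjacency matrix of its Latin square
graph in polynomial time.
-/

namespace Pool.Agent.P.MP_f1a348_lc.LG

open Pool.Agent.Lib.Helper47 Pool.Agent.P.MP_f1a348_lc.Gr Pool.Agent.P.MP_f1a348_lc.GI

/-- adjacency read off from the matrix -/
def ad (V : List ℕ) (x : List Bool) (u v : ℕ) : Bool := x.getD (u * V.length + v) false
/-- `s` is adjacent to `u`, `v` and `w` -/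
def tri (V : List ℕ) (x : List Bool) (u v w s : ℕ) : Bool :=
  ad V x s u && (ad V x s v && ad V x s w)
/-- `w` is on the line through `u` and `v` -/
def ln (V : List ℕ) (x : List Bool) (u v w : ℕ) : Bool :=
  w == u || (w == v || (ad V x w u && (ad V x w v &&
    V.any fun s => V.any fun s' => s != s' && (tri V x u v w s && tri V x u v w s'))))
/-- `u` and `v` are on a line parallel to the line through `o` and `p` -/
def sm (V : List ℕ) (x : List Bool) (o p u v : ℕ) : Bool :=
  u == v || (ad V x u v && ((ln V x o p u && ln V x o p v) ||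
    V.all fun w => !(ln V x o p w && ln V x u v w)))
/-- `u` and `v` are on a line of the third class -/
def s2 (V : List ℕ) (x : List Bool) (p q u v : ℕ) : Bool :=
  u == v || (ad V x u v && (!sm V x 0 p u v && !sm V x 0 q u v))
/-- the graph of the multiplication on the line through `0` and `p` -/
def bit (V : List ℕ) (x : List Bool) (p q a b c : ℕ) : Bool :=
  V.any fun a' => V.any fun z => sm V x 0 q 0 a' && (s2 V x p q a a' && (sm V x 0 p a' z &&
    (sm V x 0 q b z && s2 V x p q z c)))
/-- a neighbour of `0` -/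
def pp (V : List ℕ) (x : List Bool) : ℕ := (V.find? fun p => ad V x 0 p).getD 0
/-- a neighbour of `0` on another line -/
def qq (V : List ℕ) (x : List Bool) : ℕ :=
  (V.find? fun q => ad V x 0 q && !ln V x 0 (pp V x) q).getD 0
/-- the line through `0` and `pp` -/
def rr (V : List ℕ) (x : List Bool) : List ℕ := V.filter fun w => ln V x 0 (pp V x) w
/-- a list of cubic length -/
def cube (R : List ℕ) : List ℕ := R.flatMap fun _ => R.flatMap fun _ => R
/-- the table on the list `R` -/
def tb0 (V : List ℕ) (x : List Bool) (p q : ℕ) (R K : List ℕ) : List Bool :=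
  K.map fun k => bit V x p q (R.getD (k / R.length / R.length) 0)
    (R.getD (k / R.length % R.length) 0) (R.getD (k % R.length) 0)
/-- the table -/
def tb (V : List ℕ) (x : List Bool) : List Bool :=
  tb0 V x (pp V x) (qq V x) (rr V x) (List.range (cube (rr V x)).length)

/-- `z` is the cell of `a` and `b` -/
def pt (V : List ℕ) (x : List Bool) (p q a b z : ℕ) : Bool :=
  V.any fun a' => sm V x 0 q 0 a' && (s2 V x p q a a' && (sm V x 0 p a' z && sm V x 0 q b z))
/-- the cell of the elements number `a` and `b` -/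
def ph (V : List ℕ) (x : List Bool) (a b : ℕ) : ℕ :=
  (V.find? fun z => pt V x (pp V x) (qq V x) ((rr V x).getD a 0) ((rr V x).getD b 0) z).getD 0
/-- the product read off from a table -/
def mu (K : List ℕ) (T : List Bool) (a b : ℕ) : ℕ :=
  (K.find? fun c => T.getD ((a * K.length + b) * K.length + c) false).getD 0
/-- the table is the table of a group -/
def chk0 (K : List ℕ) (T : List Bool) : Bool :=
  (K.all fun a => K.all fun b => K.all fun c =>
    T.getD ((a * K.length + b) * K.length + c) false == (mu K T a b == c) &&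
      mu K T (mu K T a b) c == mu K T a (mu K T b c)) &&
    K.any fun o => K.all fun a => mu K T o a == a && K.any fun b => mu K T b a == o
/-- the graph is the Latin square graph of the table -/
def chk1 (V : List ℕ) (x : List Bool) (K : List ℕ) (T : List Bool) : Bool :=
  K.length * K.length == V.length && K.all fun a => K.all fun b => K.all fun a' => K.all fun b' =>
    ad V x (ph V x a b) (ph V x a' b') ==
      (!(a == a' && b == b') && (a == a' || (b == b' || mu K T a b == mu K T a' b'))) &&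
    (ph V x a b != ph V x a' b' || (a == a' && b == b'))
/-- the graph is the Latin square graph of a group -/
def chk (V : List ℕ) (x : List Bool) : Bool :=
  chk0 (List.range (rr V x).length) (tb V x) && chk1 V x (List.range (rr V x).length) (tb V x)

section
variable {α : Type} [Enc α] {V : α → List ℕ} {x : α → List Bool} {o p q u v w s : α → ℕ}

@[fun_prop] theorem pt_ad (h1 : PT V) (h2 : PT x) (h3 : PT u) (h4 : PT v) :
    PT (fun a => ad (V a) (x a) (u a) (v a)) := by unfold ad; fun_prop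
@[fun_prop] theorem pt_tri (h1 : PT V) (h2 : PT x) (h3 : PT u) (h4 : PT v) (h5 : PT w)
    (h6 : PT s) : PT (fun a => tri (V a) (x a) (u a) (v a) (w a) (s a)) := by unfold tri; fun_prop
@[fun_prop] theorem pt_ln (h1 : PT V) (h2 : PT x) (h3 : PT u) (h4 : PT v) (h5 : PT w) :
    PT (fun a => ln (V a) (x a) (u a) (v a) (w a)) := by unfold ln; fun_prop
@[fun_prop] theorem pt_sm (h1 : PT V) (h2 : PT x) (h3 : PT o) (h4 : PT p) (h5 : PT u)
    (h6 : PT v) : PT (fun a => sm (V a) (x a) (o a) (p a) (u a) (v a)) := by unfold sm; fun_prop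
@[fun_prop] theorem pt_s2 (h1 : PT V) (h2 : PT x) (h3 : PT p) (h4 : PT q) (h5 : PT u)
    (h6 : PT v) : PT (fun a => s2 (V a) (x a) (p a) (q a) (u a) (v a)) := by unfold s2; fun_prop
@[fun_prop] theorem pt_bit (h1 : PT V) (h2 : PT x) (h3 : PT p) (h4 : PT q) (h5 : PT u)
    (h6 : PT v) (h7 : PT w) : PT (fun a => bit (V a) (x a) (p a) (q a) (u a) (v a) (w a)) := by
  unfold bit; fun_prop
@[fun_prop] theorem pt_pp (h1 : PT V) (h2 : PT x) : PT (fun a => pp (V a) (x a)) := by
  unfold pp; fun_prop
@[fun_prop] theorem pt_qq (h1 : PT V) (h2 : PT x) : PT (fun a => qq (V a) (x a)) := by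
  unfold qq; fun_prop
@[fun_prop] theorem pt_rr (h1 : PT V) (h2 : PT x) : PT (fun a => rr (V a) (x a)) := by
  unfold rr; fun_prop
@[fun_prop] theorem pt_cube (h1 : PT V) : PT (fun a => cube (V a)) := by unfold cube; fun_prop
@[fun_prop] theorem pt_tb0 {R K : α → List ℕ} (h1 : PT V) (h2 : PT x) (h3 : PT p) (h4 : PT q)
    (h5 : PT R) (h6 : PT K) : PT (fun a => tb0 (V a) (x a) (p a) (q a) (R a) (K a)) := by
  unfold tb0; fun_prop
@[fun_prop] theorem pt_tb (h1 : PT V) (h2 : PT x) : PT (fun a => tb (V a) (x a)) :=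
  pt_tb0 h1 h2 (pt_pp h1 h2) (pt_qq h1 h2) (pt_rr h1 h2)
    (PT.rangeLength (pt_cube (pt_rr h1 h2)))
@[fun_prop] theorem pt_pt (h1 : PT V) (h2 : PT x) (h3 : PT p) (h4 : PT q) (h5 : PT u)
    (h6 : PT v) (h7 : PT w) : PT (fun a => pt (V a) (x a) (p a) (q a) (u a) (v a) (w a)) := by
  unfold pt; fun_prop
@[fun_prop] theorem pt_ph (h1 : PT V) (h2 : PT x) (h3 : PT u) (h4 : PT v) :
    PT (fun a => ph (V a) (x a) (u a) (v a)) := by unfold ph; fun_prop
@[fun_prop] theorem pt_mu (h1 : PT V) (h2 : PT x) (h3 : PT u) (h4 : PT v) :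
    PT (fun a => mu (V a) (x a) (u a) (v a)) := by unfold mu; fun_prop
theorem pt_chk0 (h1 : PT V) (h2 : PT x) : PT (fun a => chk0 (V a) (x a)) := by
  unfold chk0; fun_prop
theorem pt_chk1 {K : α → List ℕ} {T : α → List Bool} (h1 : PT V) (h2 : PT x) (h3 : PT K)
    (h4 : PT T) : PT (fun a => chk1 (V a) (x a) (K a) (T a)) := by
  unfold chk1; fun_prop
@[fun_prop] theorem pt_chk (h1 : PT V) (h2 : PT x) : PT (fun a => chk (V a) (x a)) :=
  PT.and (pt_chk0 (PT.rangeLength (pt_rr h1 h2)) (pt_tb h1 h2))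
    (pt_chk1 h1 h2 (PT.rangeLength (pt_rr h1 h2)) (pt_tb h1 h2))
end

theorem length_cube (R : List ℕ) : (cube R).length = R.length * R.length * R.length := by
  simp [cube, List.length_flatMap, mul_assoc]

section net
variable {G : Type} {n : ℕ} {co : Fin 3 → Fin n → G} {x : List Bool}

theorem any_range (f : ℕ → Bool) : (List.range n).any f = true ↔ ∃ s : Fin n, f s = true := by
  simp [Fin.exists_iff]

theorem all_range (f : ℕ → Bool) : (List.range n).all f = true ↔ ∀ s : Fin n, f s = true := by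
  simp [Fin.forall_iff]

/-- the matrix `x` is the adjacency matrix of the net -/
def Mat (co : Fin 3 → Fin n → G) (x : List Bool) : Prop :=
  ∀ u v : Fin n, ad (List.range n) x u v = true ↔ u ≠ v ∧ ∃ i, co i u = co i v

theorem ln_iff (h : IsNet co) (h5 : 5 ≤ Nat.card G) (hx : Mat co x) {m : Fin 3} {u v : Fin n}
    (huv : u ≠ v) (hm : co m u = co m v) (w : Fin n) :
    ln (List.range n) x u v w = true ↔ co m w = co m u := by
  simp only [ln, tri, Bool.or_eq_true, Bool.and_eq_true, beq_iff_eq, bne_iff_ne, any_range, hx _ _,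
    Fin.val_inj, ne_eq]
  constructor
  · rintro (rfl | rfl | ⟨⟨wu, a, ha⟩, ⟨wv, b, hb⟩, s, s', hs, k, k'⟩)
    · rfl
    · exact hm.symm
    by_contra hw
    have am : a ≠ m := fun e => hw (e ▸ ha)
    have bm : b ≠ m := fun e => hw ((e ▸ hb :).trans hm.symm)
    have ab : a ≠ b := fun e => huv (h.inj a m am _ _ (ha.symm.trans (e ▸ hb)) hm)
    have key : ∀ s : Fin n, (¬s = u ∧ ∃ i, co i s = co i u) ∧ (¬s = v ∧ ∃ i, co i s = co i v) ∧
        ¬s = w ∧ (∃ i, co i s = co i w) → co b s = co b u ∧ co a s = co a v := by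
      rintro s ⟨⟨su, a', ha'⟩, ⟨sv, b', hb'⟩, sw, c, hc⟩
      have sm : co m s ≠ co m u := fun e => by
        have cm : c ≠ m := fun e' => hw ((e' ▸ hc :).symm.trans e)
        rcases (by omega : c = a ∨ c = b) with rfl | rfl
        · exact su (h.inj c m cm _ _ (hc.trans ha) e)
        · exact sv (h.inj c m cm _ _ (hc.trans hb) (e.trans hm))
      have am' : a' ≠ m := fun e => sm (e ▸ ha')
      have bm' : b' ≠ m := fun e => sm ((e ▸ hb' :).trans hm.symm)
      have ab' : a' ≠ b' := fun e => huv (h.inj a' m am' _ _ (ha'.symm.trans (e ▸ hb')) hm)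
      rcases (by omega : a' = a ∧ b' = b ∨ a' = b ∧ b' = a) with ⟨rfl, rfl⟩ | ⟨rfl, rfl⟩
      · exact absurd (h.inj _ _ ab _ _ (ha'.trans ha.symm) (hb'.trans hb.symm)) sw
      · exact ⟨ha', hb'⟩
    exact hs (h.inj a b ab _ _ ((key s k).2.trans (key s' k').2.symm)
      ((key s k).1.trans (key s' k').1.symm))
  · intro hw
    by_cases wu : w = u
    · exact Or.inl wu
    by_cases wv : w = v
    · exact Or.inr (Or.inl wv)
    have c : 1 < ({t | co m t = co m u} \ {u, v, w}).ncard := by
      have h1 := Set.le_ncard_sdiff ({u, v, w} : Set (Fin n)) {t | co m t = co m u}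
      have h2 : ({u, v, w} : Set (Fin n)).ncard ≤ 3 :=
        (Set.ncard_insert_le _ _).trans (by have := Set.ncard_insert_le v {w}; simp at this ⊢; omega)
      rw [h.ncard_line] at h1
      omega
    obtain ⟨s, s', hs, hs', e⟩ := (Set.one_lt_ncard_iff).1 c
    have key : ∀ s ∈ {t | co m t = co m u} \ {u, v, w}, (¬s = u ∧ ∃ i, co i s = co i u) ∧
        (¬s = v ∧ ∃ i, co i s = co i v) ∧ ¬s = w ∧ (∃ i, co i s = co i w) := fun s hs => by
      obtain ⟨k1, k2⟩ := hs
      simp only [Set.mem_insert_iff, Set.mem_singleton_iff, not_or] at k2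
      exact ⟨⟨k2.1, m, k1⟩, ⟨k2.2.1, m, k1.trans hm⟩, k2.2.2, m, k1.trans hw.symm⟩
    exact Or.inr (Or.inr ⟨⟨wu, m, hw⟩, ⟨wv, m, hw.trans hm⟩, s, s', e, key s hs, key s' hs'⟩)

theorem sm_iff (h : IsNet co) (h5 : 5 ≤ Nat.card G) (hx : Mat co x) {m : Fin 3} {o p : Fin n}
    (hop : o ≠ p) (hm : co m o = co m p) (u v : Fin n) :
    sm (List.range n) x o p u v = true ↔ co m u = co m v := by
  simp only [sm, Bool.or_eq_true, Bool.and_eq_true, beq_iff_eq, all_range, hx _ _, Fin.val_inj,
    Bool.not_eq_true', Bool.and_eq_false_imp, ln_iff h h5 hx hop hm]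
  constructor
  · rintro (rfl | ⟨⟨huv, c, hc⟩, k | k⟩)
    · rfl
    · exact k.1.trans k.2.symm
    by_contra e
    obtain ⟨w, w1, w2⟩ := h.surj m c (fun e' => e (e' ▸ hc)) (co m o) (co c u)
    exact Bool.false_ne_true ((k w w1).symm.trans ((ln_iff h h5 hx huv hc w).2 w2))
  · intro e
    by_cases huv : u = v
    · exact Or.inl huv
    refine Or.inr ⟨⟨huv, m, e⟩, ?_⟩
    by_cases k : co m u = co m o
    · exact Or.inl ⟨k, e.symm.trans k⟩
    · exact Or.inr fun w hw => Bool.eq_false_iff.2 fun k' =>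
        k (((ln_iff h h5 hx huv e w).1 k').symm.trans hw)

end net

end Pool.Agent.P.MP_f1a348_lc.LG
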