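import Pool.Agent.P.MP_f1a348_lc.LG.Prog

/-! Correctness of the recovered multiplication table. -/

namespace Pool.Agent.P.MP_f1a348_lc.LG

open Pool.Agent.P.MP_f1a348_lc.Gr Pool.Agent.P.MP_f1a348_lc.GI

variable {G : Type} {n : ℕ} {co : Fin 3 → Fin n → G} {x : List Bool}

theorem s2_iff (h : IsNet co) (h5 : 5 ≤ Nat.card G) (hx : Mat co x) {i j k : Fin 3}
    {o p q : Fin n} (ho : (o : ℕ) = 0) (hp : o ≠ p) (hq : o ≠ q) (hi : co i o = co i p)
    (hj : co j o = co j q) (ij : i ≠ j) (ik : i ≠ k) (jk : j ≠ k) (u v : Fin n) :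
    s2 (List.range n) x p q u v = true ↔ co k u = co k v := by
  simp only [s2, ← ho, Bool.or_eq_true, Bool.and_eq_true, beq_iff_eq, hx _ _, Fin.val_inj,
    Bool.not_eq_true', Bool.eq_false_iff, ne_eq, sm_iff h h5 hx hp hi, sm_iff h h5 hx hq hj]
  constructor
  · rintro (rfl | ⟨⟨-, c, hc⟩, k1, k2⟩)
    · rfl
    have ci : c ≠ i := fun e => k1 (e ▸ hc)
    have cj : c ≠ j := fun e => k2 (e ▸ hc)
    obtain rfl : c = k := by omega
    exact hc
  · intro e
    by_cases huv : u = v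
    · exact Or.inl huv
    exact Or.inr ⟨⟨huv, k, e⟩, fun e' => huv (h.inj i k ik _ _ e' e),
      fun e' => huv (h.inj j k jk _ _ e' e)⟩

theorem find_range {f : ℕ → Bool} (h : ∃ s : Fin n, f s = true) :
    ∃ s : Fin n, ((List.range n).find? f).getD 0 = s ∧ f s = true := by
  obtain ⟨s, hs⟩ := h
  cases e : (List.range n).find? f with
  | none => exact absurd hs (List.find?_eq_none.1 e s (List.mem_range.2 s.2))
  | some t => exact ⟨⟨t, List.mem_range.1 (List.mem_of_find?_eq_some e)⟩, rfl, List.find?_some e⟩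

theorem exists_other (h : IsNet co) (h5 : 5 ≤ Nat.card G) (i : Fin 3) (o : Fin n) :
    ∃ p, o ≠ p ∧ co i o = co i p := by
  have c : 1 < {t | co i t = co i o}.ncard := by rw [h.ncard_line]; omega
  obtain ⟨s, hs, e⟩ := Set.exists_ne_of_one_lt_ncard c o
  exact ⟨s, e.symm, hs.symm⟩

/-- the three classes satisfy a group law in any order -/
theorem tab_law [Group G] {i j k : Fin 3} (ij : i ≠ j) (ik : i ≠ k) (jk : j ≠ k) :
    ∃ α β γ : G ≃ G, ∀ z, γ (tab G k z) = α (tab G i z) * β (tab G j z) := by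
  fin_cases i <;> fin_cases j <;> fin_cases k <;> simp only [ne_eq, not_true] at ij ik jk
  · exact ⟨.refl G, .refl G, .refl G, fun z => rfl⟩
  · exact ⟨.inv G, .refl G, .refl G, fun z => by simp [tab]⟩
  · exact ⟨.inv G, .inv G, .inv G, fun z => by simp [tab]⟩
  · exact ⟨.refl G, .inv G, .inv G, fun z => by simp [tab]⟩
  · exact ⟨.inv G, .refl G, .inv G, fun z => by simp [tab]⟩
  · exact ⟨.refl G, .inv G, .refl G, fun z => by simp [tab]⟩

theorem tb_eq [Group G] (h : IsNet co) (h5 : 5 ≤ Nat.card G) (hx : Mat co x)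
    (law : ∀ i j k : Fin 3, i ≠ j → i ≠ k → j ≠ k →
      ∃ α β γ : G ≃ G, ∀ z, γ (co k z) = α (co i z) * β (co j z))
    {N : ℕ} (hN : Nat.card G = N) : ∃ e : Fin N ≃ G, (rr (List.range n) x).length = N ∧
      tb (List.range n) x = tbits e ∧ ∃ z : Fin N → Fin N → Fin n,
        (∀ a b : Fin N, ph (List.range n) x a b = z a b) ∧ ∀ a b a' b',
          ((∃ i, co i (z a b) = co i (z a' b')) ↔ a = a' ∨ b = b' ∨ e a * e b = e a' * e b') ∧
          (z a b = z a' b' → a = a' ∧ b = b') := by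
  classical
  obtain ⟨o', -⟩ := h.surj 0 1 (by decide) 1 1
  obtain ⟨o, ho⟩ : ∃ o : Fin n, (o : ℕ) = 0 := ⟨⟨0, Fin.pos o'⟩, rfl⟩
  obtain ⟨p, p1, p2⟩ := find_range (n := n) (f := fun p => ad (List.range n) x 0 p) (by
    obtain ⟨p, k1, k2⟩ := exists_other h h5 0 o
    exact ⟨p, ho ▸ (hx o p).2 ⟨k1, 0, k2⟩⟩)
  obtain ⟨hp, i, hi⟩ := (hx o p).1 (ho ▸ p2)
  change pp (List.range n) x = p at p1
  have hl : ∀ w : Fin n, ln (List.range n) x 0 p w = true ↔ co i w = co i o := fun w =>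
    ho ▸ ln_iff h h5 hx hp hi w
  obtain ⟨q, q1, q2⟩ := find_range (n := n)
    (f := fun q => ad (List.range n) x 0 q && !ln (List.range n) x 0 (pp (List.range n) x) q) (by
      have hne : i + 1 ≠ i := (by decide : ∀ i : Fin 3, i + 1 ≠ i) i
      obtain ⟨q, k1, k2⟩ := exists_other h h5 (i + 1) o
      refine ⟨q, ?_⟩
      rw [p1, Bool.and_eq_true, Bool.not_eq_true', Bool.eq_false_iff, ne_eq, hl]
      exact ⟨ho ▸ (hx o q).2 ⟨k1, _, k2⟩, fun e => k1 (h.inj _ _ hne _ _ k2 e.symm)⟩)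
  change qq (List.range n) x = q at q1
  rw [p1, Bool.and_eq_true, Bool.not_eq_true', Bool.eq_false_iff, ne_eq, hl] at q2
  obtain ⟨hq, j, hj⟩ := (hx o q).1 (ho ▸ q2.1)
  have ij : i ≠ j := fun e => q2.2 (e ▸ hj.symm)
  obtain ⟨k, ik, jk⟩ := (by decide : ∀ i j : Fin 3, ∃ k, i ≠ k ∧ j ≠ k) i j
  obtain ⟨α, β, γ, hγ⟩ := law i j k ij ik jk
  have key : ∀ a b a' z : Fin n, co i b = co i o → co j o = co j a' → co k a = co k a' →
      co i a' = co i z → co j b = co j z →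
      γ (co k a) * (γ (co k o))⁻¹ * (γ (co k b) * (γ (co k o))⁻¹) =
        γ (co k z) * (γ (co k o))⁻¹ := fun a b a' z hb e1 e2 e3 e4 => by
    rw [e2, hγ a', hγ b, hγ z, ← e1, ← e3, ← e4, hb, hγ o]
    group
  have s := s2_iff h h5 hx ho hp hq hi hj ij ik jk
  have s0 := sm_iff h h5 hx hp hi
  have s1 := sm_iff h h5 hx hq hj
  have hb : ∀ a b c : Fin n, co i b = co i o → (bit (List.range n) x p q a b c = true ↔
      γ (co k a) * (γ (co k o))⁻¹ * (γ (co k b) * (γ (co k o))⁻¹) =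
        γ (co k c) * (γ (co k o))⁻¹) := by
    intro a b c hb
    simp only [bit, ← ho, any_range, Bool.and_eq_true, s, s0, s1]
    constructor
    · rintro ⟨a', z, e1, e2, e3, e4, e5⟩
      rw [key a b a' z hb e1 e2 e3 e4, e5]
    · intro e
      obtain ⟨a', e1, e2⟩ := h.surj j k jk (co j o) (co k a)
      obtain ⟨z, e3, e4⟩ := h.surj i j ij (co i a') (co j b)
      refine ⟨a', z, e1.symm, e2.symm, e3.symm, e4.symm, γ.injective (mul_right_cancel
        ((key a b a' z hb e1.symm e2.symm e3.symm e4.symm).symm.trans e))⟩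
  obtain ⟨R, hR⟩ : ∃ R, R = rr (List.range n) x := ⟨_, rfl⟩
  have hm : ∀ t, t ∈ R ↔ ∃ w : Fin n, (w : ℕ) = t ∧ co i w = co i o := fun t => by
    rw [hR, rr, p1, List.mem_filter, List.mem_range]
    exact ⟨fun e => ⟨⟨t, e.1⟩, rfl, (hl ⟨t, e.1⟩).1 e.2⟩, fun ⟨w, e1, e2⟩ =>
      e1 ▸ ⟨w.2, (hl w).2 e2⟩⟩
  have hd : R.Nodup := hR ▸ List.nodup_range.filter _
  choose w w1 w2 using fun a : Fin R.length => (hm R[a]).1 (List.getElem_mem a.2)
  have bij : Function.Bijective fun a : Fin R.length => γ (co k (w a)) * (γ (co k o))⁻¹ := by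
    refine ⟨fun a b e => ?_, fun g => ?_⟩
    · have e1 := h.inj i k ik _ _ ((w2 a).trans (w2 b).symm) (γ.injective (mul_right_cancel e))
      exact Fin.ext ((hd.getElem_inj_iff).1 ((w1 a).symm.trans (e1 ▸ w1 b)))
    · obtain ⟨t, t1, t2⟩ := h.surj i k ik (co i o) (γ.symm (g * γ (co k o)))
      obtain ⟨a, ha, e⟩ := List.mem_iff_getElem.1 ((hm t).2 ⟨t, rfl, t1⟩)
      have e1 : w ⟨a, ha⟩ = t := Fin.ext ((w1 ⟨a, ha⟩).trans e)
      exact ⟨⟨a, ha⟩, by simp only [e1, t2, Equiv.apply_symm_apply, mul_inv_cancel_right]⟩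
  obtain rfl : R.length = N := by
    rw [← hN, ← Nat.card_congr (Equiv.ofBijective _ bij), Nat.card_fin]
  have g : ∀ a : Fin R.length, R.getD a 0 = w a := fun a => by
    rw [w1, List.getD_eq_getElem _ _ a.2]; rfl
  refine ⟨Equiv.ofBijective _ bij, congrArg List.length hR.symm, ?_, ?_⟩
  · rw [tb, ← hR, p1, q1, length_cube, tb0, tbits]
    refine List.ext_getElem (by simp) fun t h1 h2 => ?_
    have ht : t < R.length * R.length * R.length := by simpa using h2
    rw [List.getElem_map, List.getElem_range, List.getElem_ofFn, Bool.eq_iff_iff,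
      decide_eq_true_iff]
    have := hb (w (⟨t, ht⟩ : Fin _).divNat.divNat) (w (⟨t, ht⟩ : Fin _).divNat.modNat)
      (w (⟨t, ht⟩ : Fin _).modNat) (w2 _)
    rw [← g, ← g, ← g] at this
    exact this
  have hpt : ∀ a b z : Fin n, pt (List.range n) x p q a b z = true ↔
      ∃ a' : Fin n, co j o = co j a' ∧ co k a = co k a' ∧ co i a' = co i z ∧ co j b = co j z :=
    fun a b z => by simp only [pt, ← ho, any_range, Bool.and_eq_true, s, s0, s1]
  have hz : ∀ a b : Fin R.length, ∃ z : Fin n, ph (List.range n) x a b = z ∧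
      ∃ a' : Fin n, co j o = co j a' ∧ co k (w a) = co k a' ∧ co i a' = co i z ∧
        co j (w b) = co j z := fun a b => by
    obtain ⟨z, z1, z2⟩ := find_range (n := n) (f := fun z => pt (List.range n) x p q (w a) (w b) z)
      (by
        obtain ⟨a', e1, e2⟩ := h.surj j k jk (co j o) (co k (w a))
        obtain ⟨z, e3, e4⟩ := h.surj i j ij (co i a') (co j (w b))
        exact ⟨z, (hpt _ _ _).2 ⟨a', e1.symm, e2.symm, e3.symm, e4.symm⟩⟩)
    exact ⟨z, by rw [ph, ← hR, p1, q1, g, g, z1], (hpt _ _ _).1 z2⟩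
  choose z z1 y y1 y2 y3 y4 using hz
  have winj : ∀ a a', co k (w a) = co k (w a') → a = a' := fun a a' e =>
    bij.1 (by simp only [e])
  have ci : ∀ a b a' b', co i (z a b) = co i (z a' b') ↔ a = a' := fun a b a' b' => by
    rw [← y3, ← y3]
    refine ⟨fun e => winj _ _ ?_, fun e => ?_⟩
    · rw [y2 a b, y2 a' b', h.inj i j ij _ _ e ((y1 a b).symm.trans (y1 a' b'))]
    · subst e
      rw [h.inj j k jk _ _ ((y1 a b).symm.trans (y1 a b')) ((y2 a b).symm.trans (y2 a b'))]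
  have cj : ∀ a b a' b', co j (z a b) = co j (z a' b') ↔ b = b' := fun a b a' b' => by
    rw [← y4, ← y4]
    exact ⟨fun e => winj _ _ (by rw [h.inj i j ij _ _ ((w2 b).trans (w2 b').symm) e]),
      fun e => by rw [e]⟩
  have ck : ∀ a b a' b', co k (z a b) = co k (z a' b') ↔
      Equiv.ofBijective _ bij a * Equiv.ofBijective _ bij b =
        Equiv.ofBijective _ bij a' * Equiv.ofBijective _ bij b' := fun a b a' b' => by
    simp only [Equiv.ofBijective_apply]
    rw [key _ _ _ _ (w2 b) (y1 a b) (y2 a b) (y3 a b) (y4 a b),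
      key _ _ _ _ (w2 b') (y1 a' b') (y2 a' b') (y3 a' b') (y4 a' b'), mul_left_inj,
      γ.apply_eq_iff_eq]
  refine ⟨z, z1, fun a b a' b' => ⟨?_, fun e => ⟨(ci a b a' b').1 (by rw [e]),
    (cj a b a' b').1 (by rw [e])⟩⟩⟩
  rw [← ci a b a' b', ← cj a b a' b', ← ck]
  refine ⟨fun ⟨l, hc⟩ => ?_, fun e => e.elim (fun e => ⟨_, e⟩) fun e =>
    e.elim (fun e => ⟨_, e⟩) fun e => ⟨_, e⟩⟩
  rcases (by omega : l = i ∨ l = j ∨ l = k) with rfl | rfl | rfl
  exacts [Or.inl hc, Or.inr (Or.inl hc), Or.inr (Or.inr hc)]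

end Pool.Agent.P.MP_f1a348_lc.LG
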